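import Mathlib
import Pool.Prelude.Def_F_4feeb9e2

/-!
# The number of merging classes of `n ↦ n + τ(n)` that meet `[1, x]`
-/

set_option autoImplicit false

namespace Pool.Agent.KS6_83.MO

open N6ecd04e1 Finset Filter

/-- The points `n ≤ X` whose image is beyond `X`. -/
def F (X : ℕ) : Finset ℕ := (Ioc 0 X).filter fun n => X < h n

lemma lt_h {n : ℕ} (hn : 0 < n) : n < h n := by
  have : 0 < n.divisors.card := Finset.card_pos.2 ⟨1, by simp; omega⟩
  unfold h
  omega

lemma iter_ge {m : ℕ} (hm : 0 < m) (i : ℕ) : m + i ≤ h^[i] m := by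
  induction i with
  | zero => simp
  | succ i ih =>
    rw [Function.iterate_succ_apply']
    have := lt_h (n := h^[i] m) (by omega)
    omega

/-- The set of starting points is pairwise non-merging. -/
def Sep (A : Finset ℕ) : Prop :=
  ∀ m ∈ A, ∀ n ∈ A, m ≠ n → ∀ i j : ℕ, h^[i] m ≠ h^[j] n

lemma card_le_F {A : Finset ℕ} {x X : ℕ} (hA : ∀ n ∈ A, 0 < n ∧ n ≤ x) (hs : Sep A)
    (hX : x ≤ X) : A.card ≤ (F X).card := by
  have key : ∀ m ∈ A, ∃ i : ℕ, h^[i] m ∈ F X := by
    intro m hm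
    obtain ⟨hm0, hmx⟩ := hA m hm
    have hex : ∃ i, X < h^[i] m := ⟨X, by have := iter_ge hm0 X; omega⟩
    classical
    have h1 := Nat.find_spec hex
    have h0 : Nat.find hex ≠ 0 := by
      intro h0
      rw [h0] at h1
      simp at h1
      omega
    obtain ⟨i, hi⟩ := Nat.exists_eq_succ_of_ne_zero h0
    have h2 : ¬ X < h^[i] m := Nat.find_min hex (by omega)
    rw [hi, Function.iterate_succ_apply'] at h1
    refine ⟨i, ?_⟩
    unfold F
    rw [mem_filter, mem_Ioc]
    have := iter_ge hm0 i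
    exact ⟨⟨by omega, by omega⟩, h1⟩
  choose! c hc using key
  apply Finset.card_le_card_of_injOn (fun m => h^[c m] m) (fun m hm => hc m hm)
  intro m hm n hn hmn
  by_contra hne
  exact hs m hm n hn hne _ _ hmn

lemma sum_F {x y : ℕ} : ∑ X ∈ Ico x y, (F X).card ≤ ∑ n ∈ Ioc 0 y, n.divisors.card := by
  have h1 : ∀ X ∈ Ico x y, (F X).card ≤ ((Ioc 0 y).filter fun n => n ≤ X ∧ X < h n).card := by
    intro X hX
    rw [mem_Ico] at hX
    apply Finset.card_le_card
    intro n hn
    unfold F at hn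
    rw [mem_filter, mem_Ioc] at hn ⊢
    exact ⟨⟨hn.1.1, by omega⟩, hn.1.2, hn.2⟩
  calc ∑ X ∈ Ico x y, (F X).card
      ≤ ∑ X ∈ Ico x y, ((Ioc 0 y).filter fun n => n ≤ X ∧ X < h n).card := Finset.sum_le_sum h1
    _ = ∑ X ∈ Ico x y, ∑ n ∈ Ioc 0 y, if n ≤ X ∧ X < h n then 1 else 0 := by
        apply Finset.sum_congr rfl
        intro X _
        rw [Finset.card_filter]
    _ = ∑ n ∈ Ioc 0 y, ∑ X ∈ Ico x y, if n ≤ X ∧ X < h n then 1 else 0 := Finset.sum_comm
    _ ≤ ∑ n ∈ Ioc 0 y, n.divisors.card := by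
        apply Finset.sum_le_sum
        intro n _
        rw [← Finset.card_filter]
        calc ((Ico x y).filter fun X => n ≤ X ∧ X < h n).card ≤ (Ico n (h n)).card := by
              apply Finset.card_le_card
              intro X hX
              rw [mem_filter] at hX
              exact mem_Ico.2 hX.2
          _ = n.divisors.card := by
              rw [Nat.card_Ico]
              unfold h
              omega

lemma sum_tau (N : ℕ) : (∑ n ∈ Ioc 0 N, n.divisors.card : ℕ) ≤ (N : ℝ) * (1 + Real.log N) := by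
  have h1 : ∑ n ∈ Ioc 0 N, n.divisors.card = ∑ d ∈ Ioc 0 N, N / d := by
    calc ∑ n ∈ Ioc 0 N, n.divisors.card
        = ∑ n ∈ Ioc 0 N, ∑ d ∈ Ioc 0 N, if d ∣ n then 1 else 0 := by
          apply Finset.sum_congr rfl
          intro n hn
          rw [mem_Ioc] at hn
          rw [← Finset.card_filter]
          congr 1
          ext d
          rw [Nat.mem_divisors, mem_filter, mem_Ioc]
          constructor
          · rintro ⟨hd, _⟩
            have := Nat.le_of_dvd hn.1 hd
            have := Nat.pos_of_dvd_of_pos hd hn.1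
            exact ⟨⟨this, by omega⟩, hd⟩
          · rintro ⟨_, hd⟩
            exact ⟨hd, by omega⟩
      _ = ∑ d ∈ Ioc 0 N, ∑ n ∈ Ioc 0 N, if d ∣ n then 1 else 0 := Finset.sum_comm
      _ = ∑ d ∈ Ioc 0 N, N / d := by
          apply Finset.sum_congr rfl
          intro d _
          rw [← Finset.card_filter, Nat.Ioc_filter_dvd_card_eq_div]
  rw [h1]
  push_cast
  have h2 : (harmonic N : ℝ) ≤ 1 + Real.log N := harmonic_le_one_add_log N
  have h3 : (harmonic N : ℝ) = ∑ d ∈ Ioc 0 N, (1 : ℝ) / d := by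
    rw [harmonic_eq_sum_Icc]
    push_cast
    apply Finset.sum_congr
    · ext d
      simp only [mem_Icc, mem_Ioc]
      omega
    · intro d _
      rw [one_div]
  calc (∑ d ∈ Ioc 0 N, ((N / d : ℕ) : ℝ)) ≤ ∑ d ∈ Ioc 0 N, (N : ℝ) * (1 / d) := by
        apply Finset.sum_le_sum
        intro d _
        rw [mul_one_div]
        exact Nat.cast_div_le
    _ = N * ∑ d ∈ Ioc 0 N, (1 : ℝ) / d := by rw [Finset.mul_sum]
    _ ≤ N * (1 + Real.log N) := by
        rw [← h3]
        exact mul_le_mul_of_nonneg_left h2 (Nat.cast_nonneg N)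

theorem bound {A : Finset ℕ} {x K : ℕ} (hx : 0 < x) (hK : 0 < K)
    (hA : ∀ n ∈ A, 0 < n ∧ n ≤ x) (hs : Sep A) :
    ((K : ℝ) - 1) * A.card ≤ K * (1 + Real.log (K * x)) := by
  have h1 : (Ico x (K * x)).card * A.card ≤ ∑ n ∈ Ioc 0 (K * x), n.divisors.card := by
    refine le_trans ?_ (sum_F (x := x) (y := K * x))
    rw [← smul_eq_mul, ← Finset.sum_const]
    apply Finset.sum_le_sum
    intro X hX
    exact card_le_F hA hs (mem_Ico.1 hX).1
  rw [Nat.card_Ico] at h1
  have h2 : (((K * x - x : ℕ) * A.card : ℕ) : ℝ) ≤ (K * x : ℕ) * (1 + Real.log (K * x : ℕ)) :=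
    le_trans (by exact_mod_cast h1) (sum_tau (K * x))
  have h3 : x ≤ K * x := Nat.le_mul_of_pos_left x hK
  rw [Nat.cast_mul, Nat.cast_sub h3] at h2
  push_cast at h2
  have hx' : (0 : ℝ) < x := by exact_mod_cast hx
  have h4 : (x : ℝ) * (((K : ℝ) - 1) * A.card) ≤ x * (K * (1 + Real.log (K * x))) := by
    linarith
  exact le_of_mul_le_mul_left h4 hx'

theorem asym (ε : ℝ) (hε : 0 < ε) : ∀ᶠ x : ℕ in atTop, ∀ A : Finset ℕ,
    (∀ n ∈ A, 0 < n ∧ n ≤ x) → Sep A → (A.card : ℝ) ≤ (1 + ε) * Real.log x := by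
  obtain ⟨K, hK⟩ := exists_nat_gt (1 + 2 / ε)
  have hK1 : (1 : ℝ) < K := lt_trans (by have : 0 < 2 / ε := by positivity
                                         linarith) hK
  have hK0 : 0 < K := by
    have : (0 : ℝ) < K := by linarith
    exact_mod_cast this
  have h1 : Tendsto (fun X : ℕ => Real.log (X : ℝ)) atTop atTop :=
    Real.tendsto_log_atTop.comp tendsto_natCast_atTop_atTop
  have hc : ∃ c : ℝ, c = K * (1 + Real.log K) := ⟨_, rfl⟩
  obtain ⟨c, hc⟩ := hc
  filter_upwards [h1.eventually_ge_atTop (c / (((K : ℝ) - 1) * ε - 1)), eventually_gt_atTop 0]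
    with x hx hx0 A hA hs
  have hb := bound hx0 hK0 hA hs
  have hx' : (0 : ℝ) < x := by exact_mod_cast hx0
  rw [Real.log_mul (by positivity) (by positivity)] at hb
  have hd : 0 < ((K : ℝ) - 1) * ε - 1 := by
    have : 2 / ε * ε = 2 := by field_simp
    nlinarith
  rw [div_le_iff₀ hd] at hx
  have hK2 : 0 < (K : ℝ) - 1 := by linarith
  have h5 : ((K : ℝ) - 1) * A.card ≤ (K - 1) * ((1 + ε) * Real.log x) := by
    nlinarith
  exact le_of_mul_le_mul_left h5 hK2

end Pool.Agent.KS6_83.MO
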